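import Mathlib

/-!
# Project FW, job FW-UB: the universal upper bound `1 / 2`
-/

set_option autoImplicit false

namespace Pool.Agent.Y903.FWUB

theorem pair (α β : ℝ) (m : ℕ) (hm : 1 ≤ m) (q₁ q₂ : ℤ) (hq : q₁ < q₂)
    (A k : ℤ → ℤ)
    (h1 : ⌊(m : ℝ) * (q₁ * (α + β) - A q₁)⌋ = ⌊(m : ℝ) * (q₂ * (α + β) - A q₂)⌋)
    (h2 : ⌊(m : ℝ) * (q₁ * (α - β) - (A q₁ + 2 * k q₁))⌋ =
      ⌊(m : ℝ) * (q₂ * (α - β) - (A q₂ + 2 * k q₂))⌋) :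
    ∃ p r : ℤ, |(p : ℝ) + (q₂ - q₁ : ℤ) * α| * |(r : ℝ) + (q₂ - q₁ : ℤ) * β| <
      1 / (4 * (m : ℝ) ^ 2) := by
  have hm0 : (0 : ℝ) < m := by exact_mod_cast hm
  have e1 := abs_lt.1 (Int.abs_sub_lt_one_of_floor_eq_floor h1)
  have e2 := abs_lt.1 (Int.abs_sub_lt_one_of_floor_eq_floor h2)
  refine ⟨-((A q₂ - A q₁) + (k q₂ - k q₁)), k q₂ - k q₁, ?_⟩
  rw [← abs_mul]
  push_cast
  set x : ℝ := -((A q₂ : ℝ) - A q₁ + (k q₂ - k q₁)) + (q₂ - q₁) * α with hx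
  set y : ℝ := ((k q₂ : ℝ) - k q₁) + (q₂ - q₁) * β with hy
  have f1 : (m * (x + y)) ^ 2 < 1 := by
    rw [sq_lt_one_iff_abs_lt_one, abs_lt]
    constructor
    · rw [hx, hy]
      linarith [e1.2]
    · rw [hx, hy]
      linarith [e1.1]
  have f2 : (m * (x - y)) ^ 2 < 1 := by
    rw [sq_lt_one_iff_abs_lt_one, abs_lt]
    constructor
    · rw [hx, hy]
      linarith [e2.2]
    · rw [hx, hy]
      linarith [e2.1]
  have f3 : 4 * (m : ℝ) ^ 2 * (x * y) = (m * (x + y)) ^ 2 - (m * (x - y)) ^ 2 := by ring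
  have f4 := sq_nonneg ((m : ℝ) * (x + y))
  have f5 := sq_nonneg ((m : ℝ) * (x - y))
  have hm4 : (0 : ℝ) < 4 * (m : ℝ) ^ 2 := by positivity
  rw [lt_div_iff₀ hm4]
  have f6 : |x * y| * (4 * (m : ℝ) ^ 2) = |4 * (m : ℝ) ^ 2 * (x * y)| := by
    rw [abs_mul (4 * (m : ℝ) ^ 2), abs_of_pos hm4]
    ring
  rw [f6, f3, abs_lt]
  constructor <;> linarith

theorem core (α β : ℝ) (m : ℕ) (hm : 1 ≤ m) : ∃ p r q : ℤ, 1 ≤ q ∧ q ≤ 2 * (m : ℤ) ^ 2 ∧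
    |(p : ℝ) + q * α| * |(r : ℝ) + q * β| < 1 / (4 * (m : ℝ) ^ 2) := by
  have hm0 : (0 : ℝ) < m := by exact_mod_cast hm
  obtain ⟨A, hA⟩ : ∃ A : ℤ → ℤ, ∀ q, A q = ⌊(q : ℝ) * (α + β)⌋ := ⟨_, fun _ => rfl⟩
  obtain ⟨k, hk⟩ : ∃ k : ℤ → ℤ, ∀ q, k q = ⌊((q : ℝ) * (α - β) - A q) / 2⌋ :=
    ⟨_, fun _ => rfl⟩
  have hmaps : ∀ q ∈ Finset.Ico (0 : ℤ) (2 * (m : ℤ) ^ 2 + 1),
      ((⌊(m : ℝ) * (q * (α + β) - A q)⌋, ⌊(m : ℝ) * (q * (α - β) - (A q + 2 * k q))⌋) : ℤ × ℤ) ∈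
        (Finset.Ico (0 : ℤ) m) ×ˢ (Finset.Ico (0 : ℤ) (2 * m)) := by
    intro q _
    have a1 := Int.floor_le ((q : ℝ) * (α + β))
    have a2 := Int.lt_floor_add_one ((q : ℝ) * (α + β))
    rw [← hA q] at a1 a2
    have b1 := Int.floor_le (((q : ℝ) * (α - β) - A q) / 2)
    have b2 := Int.lt_floor_add_one (((q : ℝ) * (α - β) - A q) / 2)
    rw [← hk q] at b1 b2
    rw [Finset.mem_product, Finset.mem_Ico, Finset.mem_Ico]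
    refine ⟨⟨?_, ?_⟩, ⟨?_, ?_⟩⟩
    · exact Int.floor_nonneg.2 (mul_nonneg hm0.le (by linarith))
    · rw [Int.floor_lt]
      push_cast
      nlinarith
    · exact Int.floor_nonneg.2 (mul_nonneg hm0.le (by linarith))
    · rw [Int.floor_lt]
      push_cast
      nlinarith
  have hcard : ((Finset.Ico (0 : ℤ) m) ×ˢ (Finset.Ico (0 : ℤ) (2 * m))).card <
      (Finset.Ico (0 : ℤ) (2 * (m : ℤ) ^ 2 + 1)).card := by
    rw [Finset.card_product, Int.card_Ico, Int.card_Ico, Int.card_Ico]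
    have e1 : ((m : ℤ) - 0).toNat = m := by omega
    have e2 : (2 * (m : ℤ) - 0).toNat = 2 * m := by omega
    have e3 : (2 * (m : ℤ) ^ 2 + 1 - 0).toNat = 2 * m ^ 2 + 1 := by
      have : (2 * (m : ℤ) ^ 2 + 1 - 0) = ((2 * m ^ 2 + 1 : ℕ) : ℤ) := by
        push_cast
        ring
      rw [this, Int.toNat_natCast]
    rw [e1, e2, e3]
    have : m * (2 * m) = 2 * m ^ 2 := by ring
    omega
  obtain ⟨x, hx, y, hy, hne, hxy⟩ := Finset.exists_ne_map_eq_of_card_lt_of_maps_to hcard hmaps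
  rw [Prod.mk.injEq] at hxy
  rw [Finset.mem_Ico] at hx hy
  rcases lt_or_gt_of_ne hne with h | h
  · obtain ⟨p, r, hpr⟩ := pair α β m hm x y h A k hxy.1 hxy.2
    exact ⟨p, r, y - x, by omega, by omega, hpr⟩
  · obtain ⟨p, r, hpr⟩ := pair α β m hm y x h A k hxy.1.symm hxy.2.symm
    exact ⟨p, r, x - y, by omega, by omega, hpr⟩

theorem t_UB (α β ε : ℝ) (hε : 1 / 2 < ε) : ∃ T₀ : ℝ, ∀ T : ℝ, T₀ < T →
    ∃ p r q : ℤ, 1 ≤ q ∧ (q : ℝ) ≤ T ∧ |(p : ℝ) + q * α| * |(r : ℝ) + q * β| < ε / T := by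
  obtain ⟨δ, hδ⟩ : ∃ δ : ℝ, δ = 2 * ε - 1 := ⟨_, rfl⟩
  have hδ0 : 0 < δ := by linarith
  obtain ⟨W, hW⟩ : ∃ W : ℝ, W = 2 * (1 + δ) / δ := ⟨_, rfl⟩
  have hWδ : δ * W = 2 * (1 + δ) := by
    rw [hW]
    field_simp
  have hW2 : 2 ≤ W := by
    by_contra hcon
    push Not at hcon
    nlinarith
  refine ⟨2 * W ^ 2, fun T hT => ?_⟩
  have hT0 : 0 < T := by nlinarith
  obtain ⟨w, hw⟩ : ∃ w : ℝ, w = Real.sqrt (T / 2) := ⟨_, rfl⟩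
  have hw0 : 0 ≤ w := by rw [hw]; exact Real.sqrt_nonneg _
  have hww : w ^ 2 = T / 2 := by rw [hw]; exact Real.sq_sqrt (by linarith)
  have hwW : W < w := by
    rw [hw]
    exact Real.lt_sqrt_of_sq_lt (by linarith)
  obtain ⟨m, hm⟩ : ∃ m : ℕ, m = ⌊w⌋₊ := ⟨_, rfl⟩
  have hm1 : (m : ℝ) ≤ w := by rw [hm]; exact Nat.floor_le hw0
  have hm2 : w < m + 1 := by rw [hm]; exact Nat.lt_floor_add_one w
  have hmp : (1 : ℝ) < m := by linarith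
  have hmn : 1 ≤ m := by
    have : (1 : ℝ) ≤ m := hmp.le
    exact_mod_cast this
  obtain ⟨p, r, q, hq1, hq2, hpr⟩ := core α β m hmn
  refine ⟨p, r, q, hq1, ?_, lt_of_lt_of_le hpr ?_⟩
  · have h3 : (q : ℝ) ≤ 2 * (m : ℝ) ^ 2 := by exact_mod_cast hq2
    nlinarith
  · have hm0 : (0 : ℝ) < 4 * (m : ℝ) ^ 2 := by positivity
    rw [div_le_div_iff₀ hm0 hT0]
    have h4 : (w - 1) ^ 2 ≤ (m : ℝ) ^ 2 := by
      have h5 : w - 1 ≤ m := by linarith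
      have h6 : 0 ≤ w - 1 := by linarith
      exact pow_le_pow_left₀ h6 h5 2
    have h7 : w ^ 2 ≤ (1 + δ) * (w - 1) ^ 2 := by
      have h8 : 2 * (1 + δ) ≤ δ * w := by
        rw [← hWδ]
        exact mul_le_mul_of_nonneg_left hwW.le hδ0.le
      nlinarith
    have h9 : (1 + δ) * (w - 1) ^ 2 ≤ (1 + δ) * (m : ℝ) ^ 2 :=
      mul_le_mul_of_nonneg_left h4 (by linarith)
    have h10 : 1 + δ = 2 * ε := by linarith
    rw [h10] at h7 h9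
    nlinarith

end Pool.Agent.Y903.FWUB
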